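import Pool.Agent.helper81.NU.Spec

set_option autoImplicit false

namespace Pool.Agent.helper81.NU

open Pool.Agent.helper84.NR
open scoped Classical
open Finset

theorem CA1U_one {V F : Type} (M : PMap V F) (hN2 : N2_stmt) (A f : F) (hfA : f ≠ A) (m : ℕ)
    (a : ℕ → V) (hainj : ∀ i j, i ≤ m → j ≤ m → a i = a j → i = j)
    (haE : ∀ j, j < m → OnE M.toCyc A s(a j, a (j + 1)))
    (i : ℕ) (h1 : 1 ≤ i) (him : i < m) (z : V) (hz : z ≠ a i) (hfi : OnV M.toCyc f (a i))
    (hfz : OnV M.toCyc f z) (hAz : OnV M.toCyc A z) : z = a (i - 1) ∨ z = a (i + 1) := by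
  obtain ⟨hE1, hE2⟩ := h_EDG V F M
  have hAi : OnV M.toCyc A (a i) := (hE1 A _ _ (haE i him)).1
  have e3 := (M.poly A f (Ne.symm hfA) (a i) z (Ne.symm hz) hAi hAz hfi hfz).1
  have e2 := haE i him
  have e1 : OnE M.toCyc A s(a i, a (i - 1)) := by
    have h := haE (i - 1) (by omega)
    have h2 : i - 1 + 1 = i := by omega
    rw [h2, Sym2.eq_swap] at h
    exact h
  rcases hN2 V F M.toCyc A (a i) (a (i - 1)) (a (i + 1)) z e1 e2 e3 with h | h | h
  · have := hainj _ _ (by omega) (by omega) h
    omega
  · exact Or.inl h.symm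
  · exact Or.inr h.symm

theorem CA1U_two {V F : Type} (M : PMap V F) (hN2 : N2_stmt) (A f : F) (hfA : f ≠ A) (m : ℕ)
    (a : ℕ → V) (hainj : ∀ i j, i ≤ m → j ≤ m → a i = a j → i = j)
    (haE : ∀ j, j < m → OnE M.toCyc A s(a j, a (j + 1)))
    (haA : ∀ j, j ≤ m → OnV M.toCyc A (a j))
    (i j : ℕ) (h1 : 1 ≤ i) (hij : i < j) (hjm : j ≤ m) (hfi : OnV M.toCyc f (a i))
    (hfj : OnV M.toCyc f (a j)) : j = i + 1 := by
  have hne : a j ≠ a i := by
    intro h
    have := hainj _ _ hjm (by omega) h
    omega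
  rcases CA1U_one M hN2 A f hfA m a hainj haE i h1 (by omega) (a j) hne hfi hfj (haA j hjm) with h | h
  · have := hainj _ _ hjm (by omega) h
    omega
  · exact hainj _ _ hjm (by omega) h

theorem CA1U_three {V F : Type} (M : PMap V F) (hN2 : N2_stmt) (A f : F) (hfA : f ≠ A) (m : ℕ)
    (a : ℕ → V) (hainj : ∀ i j, i ≤ m → j ≤ m → a i = a j → i = j)
    (haE : ∀ j, j < m → OnE M.toCyc A s(a j, a (j + 1))) (y : V)
    (haY : ∀ j, j < m → ¬ ∃ B, OnV M.toCyc B y ∧ OnV M.toCyc B (a j))
    (i : ℕ) (h1 : 1 ≤ i) (him : i < m) (z : V) (B : F) (hBy : OnV M.toCyc B y)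
    (hBz : OnV M.toCyc B z) (hfi : OnV M.toCyc f (a i))
    (hfz : OnV M.toCyc f z) (hAz : OnV M.toCyc A z) : i + 1 = m ∧ z = a m := by
  have hz : ∀ j, j < m → z ≠ a j := by
    intro j hj h
    exact haY j hj ⟨B, hBy, h ▸ hBz⟩
  rcases CA1U_one M hN2 A f hfA m a hainj haE i h1 him z (hz i him) hfi hfz hAz with h | h
  · exact absurd h (hz _ (by omega))
  · have h2 : i + 1 = m := by
      by_contra h3
      exact hz (i + 1) (by omega) h
    exact ⟨h2, h2 ▸ h⟩

theorem CA1U (hN2 : N2_stmt) : CA1U_stmt := by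
  intro V F M x y A B v m m' a b hxy hAx hBy hA hB
  obtain ⟨hE1, hE2⟩ := h_EDG V F M
  obtain ⟨hm, ha0, ham, hainj, haE, haY, haF⟩ := hA
  obtain ⟨hm', hb0, hbm, hbinj, hbE, hbX, hbF⟩ := hB
  by_cases hT : (∃ g, Tri M x y A B g) ∧ 2 ≤ m ∧ 2 ≤ m'
  · exact Or.inr hT
  refine Or.inl ?_
  have haA : ∀ i, i ≤ m → OnV M.toCyc A (a i) := by
    intro i hi
    rcases Nat.lt_or_ge i m with h | h
    · exact (hE1 A _ _ (haE i h)).1
    · have h1 : i = (m - 1) + 1 := by omega
      rw [h1]
      exact (hE1 A _ _ (haE (m - 1) (by omega))).2.1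
  have hbB : ∀ i, i ≤ m' → OnV M.toCyc B (b i) := by
    intro i hi
    rcases Nat.lt_or_ge i m' with h | h
    · exact (hE1 B _ _ (hbE i h)).1
    · have h1 : i = (m' - 1) + 1 := by omega
      rw [h1]
      exact (hE1 B _ _ (hbE (m' - 1) (by omega))).2.1
  obtain ⟨q, hq⟩ : ∃ q : ℕ → V, q = fun j => if j ≤ m then a j else b (m + m' - j) := ⟨_, rfl⟩
  have hqa : ∀ i, i ≤ m → q i = a i := by
    intro i hi
    rw [hq]
    exact if_pos hi
  have hqb : ∀ i, m ≤ i → q i = b (m + m' - i) := by
    intro i hi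
    rcases Nat.lt_or_ge m i with h | h
    · rw [hq]
      exact if_neg (by omega)
    · have h1 : i = m := by omega
      rw [hqa i h, h1, ham, ← hbm]
      congr 1
      omega
  have hedgeB : ∀ k, m ≤ k → k < m + m' → OnE M.toCyc B s(q k, q (k + 1)) := by
    intro k hk hk2
    rw [hqb k hk, hqb (k + 1) (by omega), Sym2.eq_swap]
    have h1 : m + m' - k = (m + m' - (k + 1)) + 1 := by omega
    rw [h1]
    exact hbE _ (by omega)
  have hedgeA : ∀ k, k < m → OnE M.toCyc A s(q k, q (k + 1)) := by
    intro k hk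
    rw [hqa k (by omega), hqa (k + 1) (by omega)]
    exact haE k hk
  have hadj : ∀ i, i < m + m' → Adj M.toCyc (q i) (q (i + 1)) := by
    intro i hi
    rcases Nat.lt_or_ge i m with h | h
    · exact ⟨A, hedgeA i h⟩
    · exact ⟨B, hedgeB i h hi⟩
  have hq0 : q 0 = x := by rw [hqa 0 (by omega), ha0]
  have hqn : q (m + m') = y := by
    rw [hqb (m + m') (by omega), ← hb0]
    congr 1
    omega
  refine ⟨m + m', q, hq0, hqn, ?_, hadj, ?_⟩
  · -- injectivity
    have key : ∀ i j, i ≤ m → m < j → j ≤ m + m' → q i ≠ q j := by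
      intro i j hi hj hj2 h
      rw [hqa i hi, hqb j (by omega)] at h
      exact hbX (m + m' - j) (by omega) ⟨A, hAx, h ▸ haA i hi⟩
    intro i j hi hj h
    rcases Nat.lt_or_ge m i with h1 | h1
    · rcases Nat.lt_or_ge m j with h2 | h2
      · rw [hqb i (by omega), hqb j (by omega)] at h
        have h3 := hbinj _ _ (by omega) (by omega) h
        omega
      · exact absurd h.symm (key j i h2 h1 hi)
    · rcases Nat.lt_or_ge m j with h2 | h2
      · exact absurd h (key i j h1 h2 hj)
      · rw [hqa i h1, hqa j h2] at h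
        exact hainj i j h1 h2 h
  · intro f i j hij hj hfi hfj k hik hkj
    by_cases hfx : OnV M.toCyc f x
    · -- a face at `x`
      have hjm : j ≤ m := by
        by_contra h
        rw [hqb j (by omega)] at hfj
        exact hbX (m + m' - j) (by omega) ⟨f, hfx, hfj⟩
      by_cases hfA : f = A
      · rw [hfA]
        exact hedgeA k (by omega)
      · rw [hqa j hjm] at hfj
        have h1 := haF f hfx hfA j (by omega) hjm hfj
        have h2 : k = 0 := by omega
        have h3 : OnV M.toCyc f (q 0) := by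
          rw [hqa 0 (by omega), ha0]
          exact hfx
        have h4 : OnV M.toCyc f (q (0 + 1)) := by
          rw [hqa (0 + 1) (by omega)]
          rw [h1] at hfj
          exact hfj
        rw [h2]
        exact hE2 f _ _ (hadj 0 (by omega)) h3 h4
    by_cases hfy : OnV M.toCyc f y
    · -- a face at `y`
      have him : m ≤ i := by
        by_contra h
        rw [hqa i (by omega)] at hfi
        exact haY i (by omega) ⟨f, hfy, hfi⟩
      by_cases hfB : f = B
      · rw [hfB]
        exact hedgeB k (by omega) (by omega)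
      · rw [hqb i him] at hfi
        have h1 := hbF f hfy hfB (m + m' - i) (by omega) (by omega) hfi
        have h2 : k = i := by omega
        have h3 : OnV M.toCyc f (q k) := by
          rw [h2, hqb i him]
          exact hfi
        have h4 : OnV M.toCyc f (q (k + 1)) := by
          rw [hqb (k + 1) (by omega)]
          have h5 : m + m' - (k + 1) = 0 := by omega
          rw [h5, hb0]
          exact hfy
        exact hE2 f _ _ (hadj k (by omega)) h3 h4
    -- a face containing neither `x` nor `y`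
    have hfA : f ≠ A := fun h => hfx (h ▸ hAx)
    have hfB : f ≠ B := fun h => hfy (h ▸ hBy)
    have hi1 : 1 ≤ i := by
      by_contra h
      have h0 : i = 0 := by omega
      rw [h0, hq0] at hfi
      exact hfx hfi
    have hjn : j < m + m' := by
      by_contra h
      have h0 : j = m + m' := by omega
      rw [h0, hqn] at hfj
      exact hfy hfj
    have hstep : ∀ l, l < m + m' → OnV M.toCyc f (q l) → OnV M.toCyc f (q (l + 1)) →
        OnE M.toCyc f s(q l, q (l + 1)) := fun l hl h h' => hE2 f _ _ (hadj l hl) h h'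
    rcases Nat.lt_or_ge m j with hmj | hjm
    · rcases Nat.lt_or_ge i m with him | hmi
      · -- `i < m < j`
        have hex : ∃ z, OnV M.toCyc A z ∧ OnV M.toCyc B z ∧ OnV M.toCyc f z := by
          by_contra hz
          apply hT
          refine ⟨⟨f, hfx, hfy, ⟨q i, ?_, hfi⟩, ⟨q j, ?_, hfj⟩, fun z h => hz ⟨z, h⟩⟩, by omega, by omega⟩
          · rw [hqa i him.le]
            exact haA i him.le
          · rw [hqb j hmj.le]
            exact hbB _ (by omega)
        obtain ⟨z, hzA, hzB, hzf⟩ := hex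
        have hfi' := hfi
        have hfj' := hfj
        rw [hqa i him.le] at hfi'
        rw [hqb j hmj.le] at hfj'
        obtain ⟨h1, h2⟩ := CA1U_three M hN2 A f hfA m a hainj haE y haY i hi1 him z B hBy hzB hfi' hzf hzA
        obtain ⟨h3, h4⟩ := CA1U_three M hN2 B f hfB m' b hbinj hbE x hbX (m + m' - j) (by omega) (by omega) z A hAx hzA hfj' hzf hzB
        have hqm : OnV M.toCyc f (q m) := by
          rw [hqa m le_rfl, ← h2]
          exact hzf
        have hk : k = i ∨ k = m := by omega
        rcases hk with hk | hk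
        · rw [hk]
          refine hstep i (by omega) hfi ?_
          rw [h1]
          exact hqm
        · rw [hk]
          refine hstep m (by omega) hqm ?_
          have h5 : j = m + 1 := by omega
          rw [← h5]
          exact hfj
      · -- `m ≤ i`
        have hfi' := hfi
        have hfj' := hfj
        rw [hqb i hmi] at hfi'
        rw [hqb j hmj.le] at hfj'
        have h1 := CA1U_two M hN2 B f hfB m' b hbinj hbE hbB (m + m' - j) (m + m' - i) (by omega) (by omega) (by omega) hfj' hfi'
        have h2 : k = i := by omega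
        have h3 : j = i + 1 := by omega
        rw [h2]
        exact hstep i (by omega) hfi (h3 ▸ hfj)
    · -- `j ≤ m`
      have hfi' := hfi
      have hfj' := hfj
      rw [hqa i (by omega)] at hfi'
      rw [hqa j hjm] at hfj'
      have h1 := CA1U_two M hN2 A f hfA m a hainj haE haA i j hi1 (by omega) hjm hfi' hfj'
      have h2 : k = i := by omega
      rw [h2]
      exact hstep i (by omega) hfi (h1 ▸ hfj)

end Pool.Agent.helper81.NU
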